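import Mathlib
import Pool.Agent.H54.SuperCat3

namespace Pool.Agent.Results.MP_1cf91b_nt.Int

open Nat Finset Pool.Agent.H54.SuperCat

/-- the normalised sum `a_n` -/
def a (n : ℕ) : ℚ :=
  1 / (n * (2 * n + 1) * ((2 * n).choose n : ℚ)) *
    ∑ k ∈ range n, (10 * k + 3) * ((2 * k).choose k : ℚ) ^ 2 * ((3 * k).choose k : ℚ) * 8 ^ (n - 1 - k)

def T (i t : ℕ) : ℚ := 2 ^ i * h i * (2 * t + i)! / (4 ^ t * t ! ^ 2 * i ! ^ 2)
def A (i t : ℕ) : ℚ := T i t * (12 * t ^ 2 / (2 * t + i))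
def B (i t : ℕ) : ℚ := T i t * (3 * (2 * i + 1))
def U (i t : ℕ) : ℚ := ∑ j ∈ range i, A j t

lemma cl (i t : ℕ) : A (i + 1) (t + 1) - A (i + 1) t = B (i + 1) t - B i t := by
  simp only [A, B, T, show 2 * (t + 1) + (i + 1) = 2 * t + i + 1 + 1 + 1 by ring,
    show 2 * t + (i + 1) = 2 * t + i + 1 by ring, h, factorial_succ, pow_succ]
  push_cast
  field_simp
  ring

lemma cl0 (t : ℕ) : A 0 (t + 1) - A 0 t = B 0 t := by
  simp only [A, B, T, show 2 * (t + 1) + 0 = 2 * t + 1 + 1 by ring, add_zero, h, factorial_succ, pow_succ]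
  rcases Nat.eq_zero_or_pos t with rfl | ht
  · norm_num
  · have : (0 : ℚ) < t := by exact_mod_cast ht
    push_cast
    field_simp
    ring

lemma UB (i t : ℕ) : U (i + 1) (t + 1) = U (i + 1) t + B i t := by
  induction i with
  | zero => simp only [U, zero_add, sum_range_one]; linarith [cl0 t]
  | succ i ih =>
    simp only [U] at ih ⊢
    rw [sum_range_succ, ih, sum_range_succ _ (i + 1)]
    linarith [cl i t]

lemma UB2 (i t : ℕ) : U (i + 1) t = ∑ s ∈ range t, B i s := by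
  induction t with
  | zero => simp [U, A]
  | succ t ih => rw [UB, ih, sum_range_succ]

lemma TT (n : ℕ) : T n n = ((2 * n).choose n : ℚ) ^ 2 * ((3 * n).choose n : ℚ) / 8 ^ n := by
  rw [c3, T, show 2 * n + n = 3 * n by ring, show (8 : ℚ) = 2 ^ 3 by norm_num,
    show (4 : ℚ) = 2 ^ 2 by norm_num, ← pow_mul, ← pow_mul]
  field_simp
  ring

lemma AA (n : ℕ) : A n n = 4 * n * T n n := by
  rcases Nat.eq_zero_or_pos n with rfl | ht
  · simp [A]
  · have : (0 : ℚ) < n := by exact_mod_cast ht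
    rw [A]; field_simp; ring

lemma psi (n : ℕ) : U n n = ∑ k ∈ range n, (10 * k + 3) * T k k := by
  induction n with
  | zero => rfl
  | succ n ih => rw [UB, sum_range_succ, ← ih, U, sum_range_succ, AA, B, U]; ring

/-- normalising factor -/
def W (n : ℕ) : ℚ := 8 ^ n / ((n + 1) * (2 * n + 3) * (4 ^ (n + 1) * h (n + 1) / (n + 1)!))

lemma a_eq (n : ℕ) : a (n + 1) = W n * U (n + 1) (n + 1) := by
  rw [psi, a, cb, W, mul_sum, mul_sum]
  refine sum_congr rfl fun k hk => ?_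
  obtain ⟨e, rfl⟩ := Nat.exists_eq_add_of_le (Nat.lt_succ_iff.1 (mem_range.1 hk))
  rw [TT, show k + e + 1 - 1 - k = e by omega, pow_add]
  have := (h_pos (k + e + 1)).ne'
  push_cast
  field_simp
  ring

lemma t1 (j e : ℕ) : (2 * (j + e : ℕ) + 3) * (W (j + e) * A j (j + e + 1)) =
    3 * 2 ^ e / 2 * (4 ^ j * h j / j !) *
      ((2 * (j + e) + 1 + j)! / ((2 * (j + e) + 1)! * j !)) := by
  simp only [W, A, T]
  rw [h_eq (j + e + 1), show 2 * (j + e + 1) + j = 2 * (j + e) + 1 + j + 1 by ring,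
    show 2 * (j + e + 1) = 2 * (j + e) + 1 + 1 by ring, factorial_succ (2 * (j + e) + 1 + j),
    factorial_succ (2 * (j + e) + 1), show (8 : ℚ) = 2 ^ 3 by norm_num,
    show (4 : ℚ) = 2 ^ 2 by norm_num, ← pow_mul, ← pow_mul, ← pow_mul]
  push_cast
  field_simp
  ring

lemma t2 (j e : ℕ) : 2 * ((j + e : ℕ) + 1) * (W (j + e) * B (j + e + 1) j) =
    3 * 4 ^ e * ((j + j)! / (j ! * j !)) * ((j + j + (j + e + 1))! / ((j + j)! * (j + e + 1)!)) := by
  simp only [W, B, T]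
  rw [show 2 * j + (j + e + 1) = j + j + (j + e + 1) by ring, show (8 : ℚ) = 2 ^ 3 by norm_num,
    show (4 : ℚ) = 2 ^ 2 by norm_num, ← pow_mul, ← pow_mul, ← pow_mul, ← pow_mul]
  have := (h_pos (j + e + 1)).ne'
  push_cast
  field_simp
  ring

lemma t3 (n : ℕ) : 2 * (W n * A (n + 1) (n + 1)) = (4 ^ (n + 1) * h (n + 1) / (n + 1)!) *
    ((3 * (n + 1))! / ((n + 1)! * (2 * (n + 1))!) / (2 * (n + 1 : ℕ) + 1)) := by
  rw [AA, W, T, show 2 * (n + 1) + (n + 1) = 3 * (n + 1) by ring, h_eq, show (8 : ℚ) = 2 ^ 3 by norm_num,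
    show (4 : ℚ) = 2 ^ 2 by norm_num, ← pow_mul, ← pow_mul]
  push_cast
  field_simp
  ring

theorem result (n : ℕ) (hn : 2 ≤ n) : ∃ z : ℤ, a n = z := by
  obtain ⟨n, rfl⟩ : ∃ m, n = m + 1 + 1 := ⟨n - 2, by omega⟩
  have I : ∃ x : ℤ, ((2 * n + 5 : ℤ) : ℚ) * a (n + 1 + 1) = x := by
    rw [a_eq, U, mul_sum, mul_sum]
    refine sum_int fun j hj => ?_
    obtain ⟨e, he⟩ := Nat.exists_eq_add_of_le (Nat.lt_succ_iff.1 hj)
    obtain ⟨y, hy⟩ := bin (2 * (j + e) + 1) j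
    rw [show ((2 * n + 5 : ℤ) : ℚ) = 2 * (n + 1 : ℕ) + 3 by push_cast; ring, he, t1, hy]
    cases e with
    | zero =>
      obtain rfl : j = n + 1 := by omega
      obtain ⟨x, hx⟩ := even_cb n
      rw [hx]
      exact ⟨3 * x * y, by push_cast; ring⟩
    | succ e =>
      rw [← cb]
      exact ⟨3 * 2 ^ e * (2 * j).choose j * y, by push_cast; ring⟩
  have II : ∃ y : ℤ, ((2 * (n + 2) : ℤ) : ℚ) * a (n + 1 + 1) = y := by
    have e1 := UB2 (n + 1 + 1) (n + 1 + 1)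
    rw [U, sum_range_succ, ← U, ← eq_sub_iff_add_eq] at e1
    rw [a_eq, e1, mul_sub, mul_sub, mul_sum, mul_sum]
    obtain ⟨x, hx⟩ := sum_int (n := n + 1 + 1)
      (f := fun j => ((2 * (n + 2) : ℤ) : ℚ) * (W (n + 1) * B (n + 1 + 1) j))
      fun j hj => by
        obtain ⟨e, he⟩ := Nat.exists_eq_add_of_le (Nat.lt_succ_iff.1 hj)
        obtain ⟨y, hy⟩ := bin (j + j) (j + e + 1)
        obtain ⟨z, hz⟩ := bin j j
        rw [show ((2 * (n + 2) : ℤ) : ℚ) = 2 * ((n + 1 : ℕ) + 1) by push_cast; ring, he, t2, hy, hz]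
        exact ⟨3 * 4 ^ e * z * y, by push_cast; ring⟩
    obtain ⟨z, hz⟩ := fc (n + 1 + 1)
    have h3 := t3 (n + 1)
    rw [hz, ← cb] at h3
    rw [hx]
    exact ⟨x - (n + 2) * (2 * (n + 1 + 1)).choose (n + 1 + 1) * z, by
      push_cast at h3 ⊢; linear_combination (-(n : ℚ) - 2) * h3⟩
  obtain ⟨x, hx⟩ := I
  obtain ⟨y, hy⟩ := II
  exact int_of_coprime (IsCoprime.mul_right ⟨1, -((n : ℤ) + 2), by ring⟩ ⟨1, -2, by ring⟩) hx hy

end Pool.Agent.Results.MP_1cf91b_nt.Int
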